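import Pool.Agent.Y50.RD.Stm

/-! Project RD (MP_a5725c_al): the next word is primitive recursive (S_prim). -/

set_option autoImplicit false

namespace Pool.Agent.Y944.RD.Prim

open Pool.Agent.Y50.RD

/-- lookup in a table -/
def lk (T : List (List ℕ × List ℕ)) (k : List ℕ) : Option (List ℕ) :=
  (T.find? (fun r => decide (r.1 = k))).map Prod.snd

theorem lk_prim (T : List (List ℕ × List ℕ)) : Primrec (lk T) := by
  induction T with
  | nil => exact Primrec.const none
  | cons a T ih =>
    have h : Primrec fun k : List ℕ => if a.1 = k then some a.2 else lk T k :=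
      Primrec.ite (Primrec.eq.comp (Primrec.const _) Primrec.id) (Primrec.const _) ih
    refine h.of_eq fun k => ?_
    by_cases hk : a.1 = k
    · simp [lk, hk]
    · simp [lk, hk]

/-- one step of the recursion -/
def stp (T : List (List ℕ × List ℕ)) (p : ℕ × List ℕ × List ℕ) : List ℕ :=
  Option.casesOn (lk T (p.1 :: p.2.1.take 2)) (p.1 :: p.2.2) fun r => r ++ p.2.1.drop 2

theorem stp_prim (T : List (List ℕ × List ℕ)) : Primrec (stp T) := by
  have h1 : Primrec fun p : ℕ × List ℕ × List ℕ => p.2.1 := Primrec.fst.comp Primrec.snd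
  have h2 : Primrec fun p : ℕ × List ℕ × List ℕ => p.2.1.take 2 :=
    Primrec.list_take.comp (Primrec.const 2) h1
  have h3 : Primrec fun p : ℕ × List ℕ × List ℕ => lk T (p.1 :: p.2.1.take 2) :=
    (lk_prim T).comp (Primrec.list_cons.comp Primrec.fst h2)
  have h4 : Primrec fun p : ℕ × List ℕ × List ℕ => p.1 :: p.2.2 :=
    Primrec.list_cons.comp Primrec.fst (Primrec.snd.comp Primrec.snd)
  have h5 : Primrec₂ fun (p : ℕ × List ℕ × List ℕ) (r : List ℕ) => r ++ p.2.1.drop 2 :=
    (Primrec.list_append.comp Primrec.snd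
      (Primrec.list_drop.comp (Primrec.const 2) (h1.comp Primrec.fst))).to₂
  exact Primrec.option_casesOn h3 h4 h5

theorem nxt_cons (T : List (List ℕ × List ℕ)) (b : ℕ) (l : List ℕ) :
    nxt T (b :: l) = stp T (b, l, nxt T l) := by
  unfold stp lk
  rw [nxt]
  cases T.find? (fun r => decide (r.1 = b :: l.take 2)) with
  | none => rfl
  | some r => rfl

theorem t : S_prim := by
  intro T
  have h := Primrec.list_rec (f := fun w : List ℕ => w) (g := fun _ => ([] : List ℕ))
    (h := fun _ p => stp T p) Primrec.id (Primrec.const _) ((stp_prim T).comp Primrec.snd).to₂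
  refine h.of_eq fun w => ?_
  induction w with
  | nil => rfl
  | cons b l ih =>
    rw [nxt_cons, ← ih]

end Pool.Agent.Y944.RD.Prim
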