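import Pool.Agent.Y50.RD.Stm

/-! Project RD (MP_a5725c_al): decision by search of a repetition (S_dec). -/

set_option autoImplicit false

namespace Pool.Agent.Y944.RD.Dec

open Pool.Agent.Y50.RD

/-- the test -/
def G (N : ℕ) (q : Bool × (ℕ × ℕ) × (List ℕ × List ℕ)) : Option Bool :=
  if q.1 = true then some false
  else if q.2.1.1 < q.2.1.2 ∧ q.2.2.1 = q.2.2.2 then some (decide (N ∈ q.2.2.1)) else none

theorem mem_prim (N : ℕ) : PrimrecPred fun u : List ℕ => N ∈ u := by
  have h : PrimrecPred fun u : List ℕ => ∃ a ∈ u, a = N :=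
    PrimrecPred.exists_mem_list (Primrec.eq.comp Primrec.id (Primrec.const N))
  exact h.of_eq fun u => by simp

theorem G_prim (N : ℕ) : Primrec (G N) := by
  have h1 : PrimrecPred fun q : Bool × (ℕ × ℕ) × (List ℕ × List ℕ) => q.1 = true :=
    Primrec.eq.comp Primrec.fst (Primrec.const true)
  have h2 : PrimrecPred fun q : Bool × (ℕ × ℕ) × (List ℕ × List ℕ) => q.2.1.1 < q.2.1.2 :=
    Primrec.nat_lt.comp (Primrec.fst.comp (Primrec.fst.comp Primrec.snd))
      (Primrec.snd.comp (Primrec.fst.comp Primrec.snd))
  have h3 : PrimrecPred fun q : Bool × (ℕ × ℕ) × (List ℕ × List ℕ) => q.2.2.1 = q.2.2.2 :=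
    Primrec.eq.comp (Primrec.fst.comp (Primrec.snd.comp Primrec.snd))
      (Primrec.snd.comp (Primrec.snd.comp Primrec.snd))
  have h4 : Primrec fun q : Bool × (ℕ × ℕ) × (List ℕ × List ℕ) =>
      (some (decide (N ∈ q.2.2.1)) : Option Bool) :=
    Primrec.option_some.comp
      ((mem_prim N).decide.comp (Primrec.fst.comp (Primrec.snd.comp Primrec.snd)))
  exact Primrec.ite h1 (Primrec.const _) (Primrec.ite (h2.and h3) h4 (Primrec.const _))

theorem t : S_dec := by
  classical
  intro w nx N f hw hnx hf h1 h2 h3
  let F : ℕ → ℕ → Option Bool := fun n k =>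
    G N (f n, (k.unpair.1, k.unpair.2), (nx^[k.unpair.1] (w n), nx^[k.unpair.2] (w n)))
  have hit : Primrec₂ fun (m : ℕ) (l : List ℕ) => nx^[m] l :=
    (Primrec.nat_iterate (f := fun p : ℕ × List ℕ => p.1) (g := fun p => p.2)
      (h := fun _ l => nx l) Primrec.fst Primrec.snd (hnx.comp Primrec.snd).to₂).to₂
  have hF : Computable₂ F := by
    have hk1 : Computable fun p : ℕ × ℕ => p.2.unpair.1 :=
      (Primrec.fst.comp (Primrec.unpair.comp Primrec.snd)).to_comp
    have hk2 : Computable fun p : ℕ × ℕ => p.2.unpair.2 :=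
      (Primrec.snd.comp (Primrec.unpair.comp Primrec.snd)).to_comp
    have hwn : Computable fun p : ℕ × ℕ => w p.1 := hw.comp Computable.fst
    have hfn : Computable fun p : ℕ × ℕ => f p.1 := hf.comp Computable.fst
    have hi1 : Computable fun p : ℕ × ℕ => nx^[p.2.unpair.1] (w p.1) :=
      hit.to_comp.comp hk1 hwn
    have hi2 : Computable fun p : ℕ × ℕ => nx^[p.2.unpair.2] (w p.1) :=
      hit.to_comp.comp hk2 hwn
    exact (G_prim N).to_comp.comp (hfn.pair ((hk1.pair hk2).pair (hi1.pair hi2)))
  have hF_apply : ∀ n k, F n k = if f n = true then some false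
      else if k.unpair.1 < k.unpair.2 ∧ nx^[k.unpair.1] (w n) = nx^[k.unpair.2] (w n) then
        some (decide (N ∈ nx^[k.unpair.1] (w n))) else none := fun n k => rfl
  -- once the letter occurs the word is constant
  have hconst : ∀ n i, N ∈ nx^[i] (w n) → ∀ t, nx^[i + t] (w n) = nx^[i] (w n) := by
    intro n i hi t
    induction t with
    | zero => rfl
    | succ t ih =>
      have h := h1 n (i + t) (by rw [ih]; exact hi)
      rw [← add_assoc, h, ih]
  have hcorr : ∀ n k b, b ∈ F n k → (b = true ↔ ∃ i, N ∈ nx^[i] (w n)) := by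
    intro n k b hb
    rw [hF_apply] at hb
    by_cases hfn : f n = true
    · rw [if_pos hfn, Option.mem_some_iff] at hb
      subst hb
      constructor
      · intro h; exact absurd h (by decide)
      · intro h
        rw [h2 n h] at hfn
        exact absurd hfn (by decide)
    · rw [if_neg hfn] at hb
      by_cases hij : k.unpair.1 < k.unpair.2 ∧ nx^[k.unpair.1] (w n) = nx^[k.unpair.2] (w n)
      · rw [if_pos hij, Option.mem_some_iff] at hb
        subst hb
        rw [decide_eq_true_iff]
        obtain ⟨hlt, heq⟩ := hij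
        generalize k.unpair.1 = i at hlt heq
        generalize k.unpair.2 = j at hlt heq
        constructor
        · intro h; exact ⟨i, h⟩
        · rintro ⟨m, hm⟩
          -- periodicity
          have hper : ∀ t, nx^[i + t * (j - i)] (w n) = nx^[i] (w n) := by
            intro t
            induction t with
            | zero => rw [zero_mul, add_zero]
            | succ t ih =>
              have e1 : i + (t + 1) * (j - i) = (j - i) + (i + t * (j - i)) := by ring
              have e2 : (j - i) + i = j := Nat.sub_add_cancel hlt.le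
              rw [e1, Function.iterate_add_apply, ih, ← Function.iterate_add_apply, e2, ← heq]
          have hge : m ≤ i + m * (j - i) := by
            have : 1 ≤ j - i := by omega
            calc m = m * 1 := (mul_one m).symm
              _ ≤ m * (j - i) := Nat.mul_le_mul_left _ this
              _ ≤ _ := Nat.le_add_left _ _
          obtain ⟨s, hs⟩ := Nat.exists_eq_add_of_le hge
          have hc := hconst n m hm s
          rw [← hs, hper] at hc
          rw [hc]
          exact hm
      · rw [if_neg hij] at hb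
        exact absurd hb (by simp)
  have hdom : ∀ n, ∃ k b, b ∈ F n k := by
    intro n
    by_cases hfn : f n = true
    · exact ⟨0, false, by rw [hF_apply, if_pos hfn]; rfl⟩
    · have hrep : ∃ i j, i < j ∧ nx^[i] (w n) = nx^[j] (w n) := by
        by_contra hno
        push Not at hno
        by_cases hN : ∀ i, N ∉ nx^[i] (w n)
        · exact hfn (h3 n hN hno)
        · push Not at hN
          obtain ⟨i, hi⟩ := hN
          exact hno i (i + 1) (Nat.lt_succ_self i) (h1 n i hi).symm
      obtain ⟨i, j, hij, heq⟩ := hrep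
      refine ⟨Nat.pair i j, decide (N ∈ nx^[i] (w n)), ?_⟩
      rw [hF_apply, if_neg hfn, Nat.unpair_pair, if_pos ⟨hij, heq⟩]
      rfl
  refine ⟨fun n => Classical.propDecidable _, ?_⟩
  have hpart : Partrec fun n => Nat.rfindOpt (F n) := Partrec.rfindOpt hF
  refine hpart.of_eq fun n => ?_
  have hd : (Nat.rfindOpt (F n)).Dom := by
    rw [Nat.rfindOpt_dom]
    obtain ⟨k, b, hb⟩ := hdom n
    exact ⟨k, b, hb⟩
  have hmem := Part.get_mem hd
  obtain ⟨k, hk⟩ := Nat.rfindOpt_spec hmem
  have hc := hcorr n k _ hk
  have hval : (Nat.rfindOpt (F n)).get hd = decide (∃ i, N ∈ nx^[i] (w n)) := by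
    rw [Bool.eq_iff_iff, decide_eq_true_iff]
    exact hc
  have hfin : Nat.rfindOpt (F n) = Part.some (decide (∃ i, N ∈ nx^[i] (w n))) := by
    rw [Part.eq_some_iff, ← hval]
    exact hmem
  exact hfin

end Pool.Agent.Y944.RD.Dec
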